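import Pool.Agent.Helper73.HU.St

/-! # HU, module WN: weak normality of the ultrafilter of an atom -/

namespace Pool.Agent.Helper62.HU.WN

open Ordinal Cardinal ZFSet Order Pool.Agent.Helper73.HODC Pool.Agent.Helper73.HE
  Pool.Agent.Helper73.HM Pool.Agent.Helper73.HU

theorem wn (h : StFO) : StWN := by
  intro τ A C hτ _ hAτ hAt hC hcof ξ hξ
  have hlim : IsSuccLimit τ := isSuccLimit_of_cof hτ
  have hS : Stat (A ∩ {a | ξ < a}) τ := hAt.1.inter_club hτ (club_Ioi hlim hξ)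
  have hne : ∀ a ∈ A ∩ {a | ξ < a}, ∃ b, b ∈ {b | C a b ∧ ξ ≤ b} ∧ b < a := by
    rintro a ⟨ha, hξa⟩
    obtain ⟨b, h1, h2, h3⟩ := hcof a ha ξ hξa
    exact ⟨b, ⟨h1, h2⟩, h3⟩
  obtain ⟨η, hη, hst⟩ := h τ (A ∩ {a | ξ < a}) (fun a => sInf {b | C a b ∧ ξ ≤ b}) hτ hS (by
    intro a ha _ _
    obtain ⟨b, h1, h2⟩ := hne a ha
    exact lt_of_le_of_lt (csInf_le' h1) h2)
  have hT : DPs {a | ∃ b, C a b ∧ ξ ≤ b ∧ b ≤ η} := by
    refine DP.exO (Q := fun b v => C (v 0).rank b ∧ ξ ≤ b ∧ b ≤ η) ?_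
    have h1 : DP (fun v => C (v 1).rank (v 0).rank) :=
      hC.rename (fun n => if n = 0 then 1 else 0)
    have h2 : DP (fun v => ξ ≤ (v 0).rank) :=
      (DP.rank_lt_ord 0 ξ).not.congr fun v => not_lt.symm
    have h3 : DP (fun v => (v 0).rank ≤ η) :=
      (DP.ord_lt_rank 0 η).not.congr fun v => not_lt.symm
    exact h1.and (h2.and h3)
  have hsplit := hAt.2 (ordSet τ {a | ∃ b, C a b ∧ ξ ≤ b ∧ b ≤ η}) (od_ordSet hT τ)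
    (ordSet_sub τ _)
  refine ⟨η, hη, fun hbad => hsplit ⟨hst.mono ?_, hbad.mono ?_⟩⟩
  · rintro a ⟨ha, hr⟩ haτ
    obtain ⟨b, h1, -⟩ := hne a ha
    have h2 : sInf {b | C a b ∧ ξ ≤ b} ∈ {b | C a b ∧ ξ ≤ b} := csInf_mem ⟨b, h1⟩
    exact ⟨ha.1, mem_st_ordSet.2 ⟨haτ, _, h2.1, h2.2, hr⟩⟩
  · rintro a ⟨ha, hno⟩ _
    exact ⟨ha, fun h' => hno (mem_st_ordSet.1 h').2⟩

end Pool.Agent.Helper62.HU.WN
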